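import Pool.Agent.helper12.LE.StmL

/-! # Project LE, row REX: the exponent of a group with given invariants -/

set_option autoImplicit false

namespace Pool.Agent.LE

open Pool.Agent.helper58.DC Pool.Agent.DI Pool.Agent.GR Pool.Agent.OB Pool.Agent.DR Pool.Agent.FI Pool.Agent.FI3 Pool.Agent.FI4 Pool.Agent.FIL

theorem REX : REX_stmt := by
  intro p G _ _ D hp r a c hc hex hinv
  obtain ⟨i, hi⟩ := hex
  obtain ⟨e⟩ := hinv
  set x : (i : Fin r) → Multiplicative (ZMod (p ^ a i)) := Pi.mulSingle i (Multiplicative.ofAdd 1) with hx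
  refine ⟨((e.symm x : D) : G), (e.symm x).2, ?_⟩
  intro h
  have h1 : (e.symm x) ^ p ^ (c - 1) = 1 := Subtype.ext (by simpa using h)
  have h2 : x ^ p ^ (c - 1) = 1 := by
    have h3 := congrArg e h1
    rwa [map_pow, MulEquiv.apply_symm_apply, map_one] at h3
  have h3 := congrFun h2 i
  rw [Pi.pow_apply, hx, Pi.mulSingle_eq_same] at h3
  have h4 : ((p ^ (c - 1) : ℕ) : ZMod (p ^ a i)) = 0 := by
    have h5 := congrArg Multiplicative.toAdd h3
    rw [toAdd_pow, toAdd_ofAdd, nsmul_eq_mul, mul_one] at h5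
    exact h5
  rw [ZMod.natCast_eq_zero_iff] at h4
  have h5 : a i ≤ c - 1 := (Nat.pow_dvd_pow_iff_le_right hp.one_lt).1 h4
  omega

end Pool.Agent.LE
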