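import Pool.Agent.helper12.LE.StmL

/-! # Project LE, row SHB: the elements of order `p` are `p ^ (j - 1)`-th powers -/

set_option autoImplicit false

namespace Pool.Agent.LE

open Pool.Agent.helper58.DC Pool.Agent.DI Pool.Agent.GR Pool.Agent.OB Pool.Agent.DR Pool.Agent.FI Pool.Agent.FI3 Pool.Agent.FI4 Pool.Agent.FIL

theorem SHB_key (p : ℕ) (hp : p.Prime) (j n : ℕ) (hj : 1 ≤ j) (hjn : j ≤ n) (x : ZMod (p ^ n))
    (hx : p • x = 0) : ∃ y : ZMod (p ^ n), (p ^ (j - 1)) • y = x := by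
  have hp0 : p ^ n ≠ 0 := pow_ne_zero _ hp.ne_zero
  have : NeZero (p ^ n) := ⟨hp0⟩
  have h1 : ((p * x.val : ℕ) : ZMod (p ^ n)) = 0 := by
    rw [Nat.cast_mul, ZMod.natCast_zmod_val, ← nsmul_eq_mul]
    exact hx
  rw [ZMod.natCast_eq_zero_iff] at h1
  have h2 : p ^ (n - 1) ∣ x.val := by
    have h3 : p ^ n = p * p ^ (n - 1) := by
      rw [← pow_succ']
      congr 1
      omega
    exact Nat.dvd_of_mul_dvd_mul_left hp.pos (h3.symm.dvd.trans h1)
  obtain ⟨w, hw⟩ := h2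
  refine ⟨((p ^ (n - j) * w : ℕ) : ZMod (p ^ n)), ?_⟩
  rw [nsmul_eq_mul, ← Nat.cast_mul]
  have h4 : p ^ (j - 1) * (p ^ (n - j) * w) = x.val := by
    rw [hw, ← mul_assoc, ← pow_add]
    congr 2
    omega
  rw [h4, ZMod.natCast_zmod_val]

theorem SHB : SHB_stmt := by
  intro p G _ _ D hp r a j hj ha hinv u hu hup
  obtain ⟨e⟩ := hinv
  have h1 : (⟨u, hu⟩ : D) ^ p = 1 := Subtype.ext (by simpa using hup)
  have h2 : (e ⟨u, hu⟩) ^ p = 1 := by rw [← map_pow, h1, map_one]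
  have h3 : ∀ i, ∃ y : ZMod (p ^ a i), (p ^ (j - 1)) • y = Multiplicative.toAdd (e ⟨u, hu⟩ i) := by
    intro i
    refine SHB_key p hp j (a i) hj (ha i) _ ?_
    have h4 := congrFun h2 i
    rw [Pi.pow_apply] at h4
    have h5 := congrArg Multiplicative.toAdd h4
    rw [toAdd_pow] at h5
    exact h5
  choose y hy using h3
  have h6 : e (e.symm (fun i => Multiplicative.ofAdd (y i)) ^ p ^ (j - 1)) = e ⟨u, hu⟩ := by
    rw [map_pow, MulEquiv.apply_symm_apply]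
    funext i
    rw [Pi.pow_apply, ← ofAdd_nsmul, hy i, ofAdd_toAdd]
  have h7 := e.injective h6
  refine ⟨((e.symm (fun i => Multiplicative.ofAdd (y i)) : D) : G), (e.symm _).2, ?_⟩
  have h8 := congrArg (fun d : D => (d : G)) h7
  simpa using h8

end Pool.Agent.LE
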